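import Mathlib
import Pool.Agent.V1199.Weak
import Pool.Agent.V1199.C0

open Set Filter Topology
open scoped ZeroAtInfty BoundedContinuousFunction

namespace Pool.Agent.Results.MP_4410f0_an.ThickNotD2

/-- `W` is a relatively weakly open subset of the closed unit ball. -/
def RelWeaklyOpen {X : Type} [NormedAddCommGroup X] [NormedSpace ℝ X] (W : Set X) : Prop :=
  ∃ U : Set (WeakSpace ℝ X), IsOpen U ∧ W = {y : X | ‖y‖ ≤ 1 ∧ toWeakSpace ℝ X y ∈ U}

/-- The Daugavet index of thickness. -/
noncomputable def thickness (X : Type) [NormedAddCommGroup X] [NormedSpace ℝ X] : ℝ :=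
  sInf {r : ℝ | 0 < r ∧ ∃ x : X, ‖x‖ = 1 ∧ ∃ W : Set X, RelWeaklyOpen W ∧ W.Nonempty ∧
    W ⊆ Metric.closedBall x r}

/-- The space: pairs `(y, z)` with `y ∈ c₀`, `z ∈ ℓ_∞` and `y - z` constant. -/
def XS : Submodule ℝ (C₀(ℕ, ℝ) × (ℕ →ᵇ ℝ)) where
  carrier := {p | ∀ n, p.1 n - p.2 n = p.1 0 - p.2 0}
  add_mem' := by
    intro p q hp hq n
    have h1 := hp n
    have h2 := hq n
    simp only [Prod.fst_add, Prod.snd_add, ZeroAtInftyContinuousMap.add_apply,
      BoundedContinuousFunction.add_apply]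
    linarith
  zero_mem' := by intro n; simp
  smul_mem' := by
    intro c p hp n
    have h1 := hp n
    simp only [Prod.smul_fst, Prod.smul_snd, ZeroAtInftyContinuousMap.smul_apply,
      BoundedContinuousFunction.smul_apply, smul_eq_mul]
    rw [← mul_sub, ← mul_sub, h1]

theorem cont1 (n : ℕ) : Continuous (fun p : C₀(ℕ, ℝ) × (ℕ →ᵇ ℝ) => p.1 n) :=
  (V1199.c0_eval_continuous n).comp continuous_fst

theorem cont2 (n : ℕ) : Continuous (fun p : C₀(ℕ, ℝ) × (ℕ →ᵇ ℝ) => p.2 n) :=
  (BoundedContinuousFunction.lipschitz_eval_const n).continuous.comp continuous_snd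

theorem XS_closed : IsClosed (XS : Set (C₀(ℕ, ℝ) × (ℕ →ᵇ ℝ))) := by
  have h : (XS : Set (C₀(ℕ, ℝ) × (ℕ →ᵇ ℝ))) = ⋂ n, {p | p.1 n - p.2 n = p.1 0 - p.2 0} := by
    ext p
    simp only [mem_iInter]
    exact Iff.rfl
  rw [h]
  exact isClosed_iInter (fun n => isClosed_eq ((cont1 n).sub (cont2 n)) ((cont1 0).sub (cont2 0)))

/-- The space as a type. -/
def X : Type := XS

noncomputable instance : NormedAddCommGroup X := inferInstanceAs (NormedAddCommGroup XS)
noncomputable instance : NormedSpace ℝ X := inferInstanceAs (NormedSpace ℝ XS)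
instance : CompleteSpace X := XS_closed.completeSpace_coe

/-- First component. -/
def y (p : X) : C₀(ℕ, ℝ) := (show XS from p).1.1
/-- Second component. -/
def z (p : X) : ℕ →ᵇ ℝ := (show XS from p).1.2

theorem y_add (p q : X) (n : ℕ) : y (p + q) n = y p n + y q n := rfl
theorem z_add (p q : X) (n : ℕ) : z (p + q) n = z p n + z q n := rfl
theorem y_sub (p q : X) (n : ℕ) : y (p - q) n = y p n - y q n := rfl
theorem y_smul (c : ℝ) (p : X) (n : ℕ) : y (c • p) n = c * y p n := rfl
theorem z_smul (c : ℝ) (p : X) (n : ℕ) : z (c • p) n = c * z p n := rfl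

/-- The norm. -/
theorem norm_le_iff (p : X) {r : ℝ} (hr : 0 ≤ r) :
    ‖p‖ ≤ r ↔ (∀ n, |y p n| ≤ r) ∧ ∀ n, |z p n| ≤ r := by
  have h : ‖p‖ = max ‖y p‖ ‖z p‖ := rfl
  rw [h, max_le_iff, V1199.c0_norm_le hr, BoundedContinuousFunction.norm_le hr]
  rfl

/-- The functional `t`. -/
noncomputable def t : StrongDual ℝ X :=
  LinearMap.mkContinuous
    { toFun := fun p : X => y p 0 - z p 0
      map_add' := fun p q => by
        rw [y_add, z_add]
        ring
      map_smul' := fun c p => by
        rw [y_smul, z_smul]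
        simp only [RingHom.id_apply, smul_eq_mul]
        ring } 2
    (fun p => by
      have h := (norm_le_iff p (norm_nonneg p)).mp le_rfl
      have h1 := h.1 0
      have h2 := h.2 0
      show ‖y p 0 - z p 0‖ ≤ 2 * ‖p‖
      rw [Real.norm_eq_abs]
      have := abs_sub (y p 0) (z p 0)
      linarith)

theorem t_apply (p : X) : t p = y p 0 - z p 0 := rfl

theorem snd_eq (p : X) (n : ℕ) : z p n = y p n - t p := by
  have h : y p n - z p n = y p 0 - z p 0 := (show XS from p).2 n
  rw [t_apply]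
  linarith

/-- The inclusion of `c₀`, as a map. -/
noncomputable def J0 (w : C₀(ℕ, ℝ)) : X := (⟨(w, w.toBCF), fun n => by simp⟩ : XS)

theorem y_J0 (w : C₀(ℕ, ℝ)) (n : ℕ) : y (J0 w) n = w n := rfl
theorem z_J0 (w : C₀(ℕ, ℝ)) (n : ℕ) : z (J0 w) n = w n := rfl

/-- The inclusion of `c₀`. -/
noncomputable def J : C₀(ℕ, ℝ) →L[ℝ] X :=
  LinearMap.mkContinuous
    { toFun := J0
      map_add' := fun y z => rfl
      map_smul' := fun c y => rfl } 1
    (fun w => by
      rw [one_mul]
      show ‖J0 w‖ ≤ ‖w‖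
      rw [norm_le_iff _ (norm_nonneg w)]
      exact ⟨fun n => V1199.c0_abs_le w n, fun n => V1199.c0_abs_le w n⟩)

theorem J_fst (w : C₀(ℕ, ℝ)) (n : ℕ) : y (J w) n = w n := rfl
theorem t_J (w : C₀(ℕ, ℝ)) : t (J w) = 0 := by
  rw [t_apply]
  show w 0 - w 0 = 0
  ring

theorem t_le (p : X) : |t p| ≤ ‖p‖ := by
  have h := (norm_le_iff p (norm_nonneg p)).mp le_rfl
  have h1 : Tendsto (fun n => |z p n|) atTop (𝓝 |0 - t p|) := by
    have h2 := ((V1199.c0_tendsto (y p)).sub_const (t p)).abs
    refine h2.congr (fun n => ?_)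
    rw [snd_eq]
  have h3 := le_of_tendsto h1 (Eventually.of_forall h.2)
  rwa [zero_sub, abs_neg] at h3

theorem ball_iff (p : X) : ‖p‖ ≤ 1 ↔ (∀ n, |y p n| ≤ 1) ∧ ∀ n, |y p n - t p| ≤ 1 := by
  rw [norm_le_iff p zero_le_one]
  simp only [snd_eq]

/-- The point `(0, -1)` with `t = 1`. -/
noncomputable def u : X :=
  (⟨(0, BoundedContinuousFunction.const ℕ (-1)), fun n => by simp⟩ : XS)

theorem t_u : t u = 1 := by
  rw [t_apply]
  show (0 : ℝ) - (-1) = 1
  norm_num

theorem u_fst (n : ℕ) : y u n = 0 := rfl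

theorem norm_u : ‖u‖ = 1 := by
  apply le_antisymm
  · rw [ball_iff, t_u]
    constructor
    · intro n; rw [u_fst]; norm_num
    · intro n; rw [u_fst]; norm_num
  · have := t_le u
    rwa [t_u, abs_one] at this

/-- The slice of small diameter. -/
def W : Set X := {y : X | ‖y‖ ≤ 1 ∧
  toWeakSpace ℝ X y ∈ {z : WeakSpace ℝ X | 3 / 4 < t ((toWeakSpace ℝ X).symm z)}}

theorem W_open : RelWeaklyOpen W := ⟨_, V1199.weak_isOpen_lt t (3 / 4), rfl⟩

theorem W_nonempty : W.Nonempty := by
  refine ⟨u, norm_u.le, ?_⟩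
  show 3 / 4 < t u
  rw [t_u]
  norm_num

theorem W_diam : Metric.diam W < 2 := by
  have h : Metric.diam W ≤ 3 / 2 := by
    refine Metric.diam_le_of_forall_dist_le (by norm_num) ?_
    rintro p ⟨hp, hp'⟩ q ⟨hq, hq'⟩
    have h1 : 3 / 4 < t p := hp'
    have h2 : 3 / 4 < t q := hq'
    rw [dist_eq_norm, norm_le_iff _ (by norm_num)]
    rw [ball_iff] at hp hq
    have hfst : ∀ n, y (p - q) n = y p n - y q n := fun n => rfl
    have ht := le_trans (t_le p) ((ball_iff p).mpr hp)
    have ht' := le_trans (t_le q) ((ball_iff q).mpr hq)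
    have htp := (abs_le.mp ht).2
    have htq := (abs_le.mp ht').2
    constructor
    · intro n
      rw [hfst]
      have a1 := abs_le.mp (hp.1 n)
      have a2 := abs_le.mp (hp.2 n)
      have a3 := abs_le.mp (hq.1 n)
      have a4 := abs_le.mp (hq.2 n)
      rw [abs_le]
      constructor <;> linarith [a1.1, a1.2, a2.1, a2.2, a3.1, a3.2, a4.1, a4.2]
    · intro n
      rw [snd_eq, hfst, map_sub]
      have a1 := abs_le.mp (hp.1 n)
      have a2 := abs_le.mp (hp.2 n)
      have a3 := abs_le.mp (hq.1 n)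
      have a4 := abs_le.mp (hq.2 n)
      rw [abs_le]
      constructor <;> linarith [a1.1, a1.2, a2.1, a2.2, a3.1, a3.2, a4.1, a4.2]
  linarith

theorem one_le_thickness : 1 ≤ thickness X := by
  apply le_csInf
  · refine ⟨2, by norm_num, u, norm_u, {y | ‖y‖ ≤ 1 ∧ toWeakSpace ℝ X y ∈ univ},
      ⟨univ, isOpen_univ, rfl⟩, ⟨0, by simp⟩, ?_⟩
    rintro y ⟨hy, _⟩
    rw [Metric.mem_closedBall, dist_eq_norm]
    calc ‖y - u‖ ≤ ‖y‖ + ‖u‖ := norm_sub_le _ _
      _ ≤ 2 := by rw [norm_u]; linarith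
  · rintro r ⟨_, x, hx, V, ⟨U, hU, rfl⟩, ⟨w, hw, hwU⟩, hsub⟩
    obtain ⟨F, ε, hε, hF⟩ := V1199.weak_basic hU hwU
    -- the sign
    obtain ⟨σ, hσ1, hσ2⟩ : ∃ σ : ℝ, |σ| = 1 ∧ |σ - t w| ≤ 1 := by
      have := abs_le.mp (le_trans (t_le w) hw)
      rcases le_total 0 (t w) with h | h
      · refine ⟨1, abs_one, ?_⟩
        rw [abs_le]; constructor <;> linarith [this.2]
      · refine ⟨-1, by simp, ?_⟩
        rw [abs_le]; constructor <;> linarith [this.1]
    have key : ∀ δ > 0, 1 - δ ≤ r := by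
      intro δ hδ
      have e1 : ∀ᶠ n in atTop, ∀ f ∈ F, |f (J (V1199.e n))| < ε / 2 := by
        rw [Finset.eventually_all]
        intro f _
        have h1 := (V1199.c0_dual_comp_tendsto J f).abs
        rw [abs_zero] at h1
        exact h1.eventually (gt_mem_nhds (half_pos hε))
      have e2 : ∀ᶠ n in atTop, |y x n| < δ := by
        have h1 := (V1199.c0_tendsto (y x)).abs
        rw [abs_zero] at h1
        exact h1.eventually (gt_mem_nhds hδ)
      obtain ⟨n, hn1, hn2⟩ := (e1.and e2).exists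
      set c : ℝ := σ - y w n with hc
      have hwb := (ball_iff w).mp hw
      have hc2 : |c| ≤ 2 := by
        have a1 := abs_le.mp (hwb.1 n)
        have a2 := abs_le.mp hσ1.le
        rw [abs_le]; constructor <;> linarith [a1.1, a1.2, a2.1, a2.2]
      set w' : X := w + c • J (V1199.e n) with hw'
      have hco : ∀ k, y w' k = if k = n then σ else y w k := by
        intro k
        have h1 : y w' k = y w k + c * (V1199.e n) k := rfl
        rw [h1, V1199.e_apply]
        split_ifs with hk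
        · rw [hk, hc]; ring
        · ring
      have htw : t w' = t w := by
        rw [hw', map_add, map_smul, t_J, smul_zero, add_zero]
      have hw'b : ‖w'‖ ≤ 1 := by
        rw [ball_iff, htw]
        constructor
        · intro k
          rw [hco]
          split_ifs
          · exact hσ1.le
          · exact hwb.1 k
        · intro k
          rw [hco]
          split_ifs
          · exact hσ2
          · exact hwb.2 k
      have hw'U : toWeakSpace ℝ X w' ∈ U := by
        apply hF
        intro f hf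
        have h1 : f w' - f w = c * f (J (V1199.e n)) := by
          rw [hw', map_add, map_smul, smul_eq_mul]; ring
        rw [h1, abs_mul]
        have h2 := hn1 f hf
        have h3 := abs_nonneg (f (J (V1199.e n)))
        nlinarith [abs_nonneg c]
      have hball := hsub ⟨hw'b, hw'U⟩
      rw [Metric.mem_closedBall, dist_eq_norm] at hball
      have h1 : |y (w' - x) n| ≤ ‖w' - x‖ :=
        ((norm_le_iff (w' - x) (norm_nonneg _)).mp le_rfl).1 n
      have h2 : y (w' - x) n = y w' n - y x n := rfl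
      rw [h2, hco, if_pos rfl] at h1
      have h3 : |σ| - |y x n| ≤ |σ - y x n| := abs_sub_abs_le_abs_sub _ _
      rw [hσ1] at h3
      linarith
    by_contra hcon
    push Not at hcon
    have := key ((1 - r) / 2) (by linarith)
    linarith

/-- There is a Banach space with Daugavet index of thickness at least `1` and a nonempty relatively
weakly open subset of its unit ball with diameter less than `2`. -/
theorem result : ∃ (X : Type) (_ : NormedAddCommGroup X) (_ : NormedSpace ℝ X),
    CompleteSpace X ∧ Nontrivial X ∧ 1 ≤ thickness X ∧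
    ∃ W : Set X, RelWeaklyOpen W ∧ W.Nonempty ∧ Metric.diam W < 2 := by
  refine ⟨X, inferInstance, inferInstance, inferInstance, ⟨u, 0, ?_⟩,
    one_le_thickness, W, W_open, W_nonempty, W_diam⟩
  intro h
  have := norm_u
  rw [h, norm_zero] at this
  norm_num at this

end Pool.Agent.Results.MP_4410f0_an.ThickNotD2
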